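import Pool.Agent.MVD.StmtsLoc

/-!
# Squad MVD, row GIN: induction
-/

set_option autoImplicit false

namespace Pool.Agent.MVD.H8

open Pool.Agent.Helper14_MV Pool.Agent.Helper2_MV Pool.Agent.MVD

theorem perm_places (P1 P2 Q1 Q2 : List ℕ) (e f a b z : ℕ) :
    ((P1 ++ a :: b :: f :: P2) ++ (Q1 ++ e :: z :: Q2)).Perm
      (a :: b :: z :: ((P1 ++ f :: P2) ++ (Q1 ++ e :: Q2))) := by
  rw [List.perm_iff_count]
  intro x
  simp only [List.count_append, List.count_cons]
  omega

theorem le_sum (L : List ℕ) : ∀ x ∈ L, x ≤ L.sum := by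
  induction L with
  | nil =>
    intro x hx
    simp at hx
  | cons y L ih =>
    intro x hx
    rw [List.sum_cons]
    rcases List.mem_cons.mp hx with rfl | hx
    · omega
    · have := ih x hx
      omega

/-- **GIN** -/
theorem gin (hgcn : GcnStmt) (hgrd : GrdStmt) (hgpn : GpnStmt) : GinStmt := by
  intro β hc cb n
  induction n with
  | zero =>
    intro p c q y hlen _ _
    have : c = [] := List.eq_nil_of_length_eq_zero (by omega)
    subst this
    exact RR.refl _
  | succ n ih =>
    apply hgcn β n hc ih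
    intro P Q γ hcan hlen
    by_contra hnf
    have NFh : NF β n P Q γ := ⟨hc, cb, ih, hcan, hlen, hnf⟩
    obtain ⟨⟨e, he, hd⟩, ⟨f, hf, lt⟩⟩ := hgrd β n P Q γ NFh γ (List.Perm.refl _) (RR.refl _)
    obtain ⟨P1, P2, rfl⟩ := List.append_of_mem hf
    obtain ⟨Q1, Q2, rfl⟩ := List.append_of_mem he
    set S := ((P1 ++ f :: P2) ++ (Q1 ++ e :: Q2)).sum with hS
    have hle := le_sum ((P1 ++ f :: P2) ++ (Q1 ++ e :: Q2))
    have n1 : S + 1 ∉ (P1 ++ f :: P2) ++ (Q1 ++ e :: Q2) := fun h => by
      have := hle _ h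
      omega
    have n2 : S + 2 ∉ (P1 ++ f :: P2) ++ (Q1 ++ e :: Q2) := fun h => by
      have := hle _ h
      omega
    have n3 : S + 3 ∉ (P1 ++ f :: P2) ++ (Q1 ++ e :: Q2) := fun h => by
      have := hle _ h
      omega
    refine hgpn β n P1 P2 Q1 Q2 e f (S + 1) (S + 2) (S + 3) γ ⟨NFh, ?_, hd, lt⟩
    rw [(perm_places P1 P2 Q1 Q2 e f (S + 1) (S + 2) (S + 3)).nodup_iff, List.nodup_cons,
      List.nodup_cons, List.nodup_cons]
    refine ⟨?_, ?_, n3, hcan.nd⟩
    · intro h
      rcases List.mem_cons.mp h with h | h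
      · omega
      · rcases List.mem_cons.mp h with h | h
        · omega
        · exact n1 h
    · intro h
      rcases List.mem_cons.mp h with h | h
      · omega
      · exact n2 h

end Pool.Agent.MVD.H8
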